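import Pool.Agent.H7.MuMain

set_option autoImplicit false

namespace Pool.Agent.Results.MP_589357_co.Counter

open Finset

open Classical in
/-- The subtrees of `G`: all subgraphs (not necessarily induced) that are trees. -/
noncomputable def subtrees {V : Type} [Fintype V] (G : SimpleGraph V) : Finset G.Subgraph :=
  Finset.univ.filter (fun H : G.Subgraph => H.coe.IsTree)

/-- The mean subtree order `μ(G)`. -/
noncomputable def mu {V : Type} [Fintype V] (G : SimpleGraph V) : ℚ :=
  (∑ H ∈ subtrees G, (H.verts.ncard : ℚ)) / ((subtrees G).card : ℚ)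

open Classical in
/-- The connected sets of `G`: nonempty vertex sets inducing a connected subgraph. -/
noncomputable def connSets {V : Type} [Fintype V] (G : SimpleGraph V) : Finset (Finset V) :=
  Finset.univ.filter (fun S : Finset V => (G.induce (S : Set V)).Connected)

/-- The average size `av(G)` of a connected set. -/
noncomputable def av {V : Type} [Fintype V] (G : SimpleGraph V) : ℚ :=
  (∑ S ∈ connSets G, (S.card : ℚ)) / ((connSets G).card : ℚ)

theorem result :
    ∃ (n : ℕ) (G : SimpleGraph (Fin n)), G.Connected ∧ mu G < av G := by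
  classical
  refine ⟨532, Pool.Agent.H7.Mu.G, Pool.Agent.H7.Mu.G_conn, ?_⟩
  have h1 : (subtrees Pool.Agent.H7.Mu.G).card = 69570704846182 := by
    rw [card_eq_sum_ones]; unfold subtrees; exact (@Pool.Agent.H7.Mu.trees_val (_)).1
  have h2 : ∑ H ∈ subtrees Pool.Agent.H7.Mu.G, H.verts.ncard = 28584726354608266 := by
    unfold subtrees; exact (@Pool.Agent.H7.Mu.trees_val (_)).2
  have h3 : (connSets Pool.Agent.H7.Mu.G).card = 8913444107502 := by
    rw [card_eq_sum_ones]; unfold connSets; exact (@Pool.Agent.H7.Mu.sets_val (_)).1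
  have h4 : ∑ S ∈ connSets Pool.Agent.H7.Mu.G, S.card = 3662317059645722 := by
    unfold connSets; exact (@Pool.Agent.H7.Mu.sets_val (_)).2
  unfold mu av
  rw [← Nat.cast_sum, ← Nat.cast_sum, h1, h2, h3, h4]
  norm_num

end Pool.Agent.Results.MP_589357_co.Counter
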